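import Pool.Agent.U122.DR.Bip
import Pool.Agent.U531.SR.Struct
import Pool.Agent.U531.SR.Forest
import Pool.Agent.U531.SR.Conv

/-!
# Extending total colourings of distance-3 matchings in sparse random graphs
-/

set_option autoImplicit false

namespace Pool.Agent.U122.DR

open Filter Topology
open Pool.Agent.Results.MP_db9399_co.SparseLargeDegrees
  (IsTotalColoring IsDistThreeMatching Extends ListExtends degree_part)
open Pool.Agent.U531.SR

/-- all distance-3 matchings, at least `Δ + s` colours -/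
def PE (s : ℕ) {n : ℕ} (G : SimpleGraph (Fin n)) : Prop :=
  ∀ H : SimpleGraph (Fin n), IsDistThreeMatching G H → ∀ k : ℕ,
    (∀ v, (G.neighborSet v).ncard + s ≤ k) → Extends G H k

theorem PE_mono {s t : ℕ} (h : s ≤ t) {n : ℕ} (G : SimpleGraph (Fin n)) (hs : PE s G) : PE t G :=
  fun H hH k hk => hs H hH k (fun v => by have := hk v; omega)

/-- the number `δ` -/
theorem exists_del (κ : ℝ) (hκ : 0 < κ) :
    ∃ δ : ℝ, 0 < δ ∧ δ < 1 ∧ κ * Ph 1 (1 / (1 - δ)) < 1 := by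
  have h2 : 0 < κ + 2 := by linarith
  refine ⟨1 / (κ + 2), by positivity, by rw [div_lt_one h2]; linarith, ?_⟩
  have h1 : 0 < κ + 1 := by linarith
  have e1 : (1 : ℝ) / (1 - 1 / (κ + 2)) = 1 + 1 / (κ + 1) := by
    have : (1 : ℝ) - 1 / (κ + 2) = (κ + 1) / (κ + 2) := by
      field_simp
      ring
    rw [this, one_div_div]
    field_simp
    ring
  rw [e1]
  set x : ℝ := 1 / (κ + 1) with hx
  have hx0 : 0 < x := by positivity
  have hlog : Real.log (1 + x) ≤ x := by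
    have := Real.log_le_sub_one_of_pos (x := 1 + x) (by linarith)
    linarith
  have e2 : Ph 1 (1 + x) ≤ x ^ 2 := by
    unfold Ph
    rw [div_one]
    nlinarith [mul_le_mul_of_nonneg_left hlog (by linarith : (0 : ℝ) ≤ 1 + x)]
  have e3 : κ * x ^ 2 < 1 := by
    have e4 : x * (κ + 1) = 1 := by
      rw [hx]
      field_simp
    nlinarith
  nlinarith

/-- boundedly many neighbours of large degree -/
theorem pe_of_few (δ : ℝ) (hδ : 0 < δ) (b : ℕ) : ∃ D₁ : ℕ, ∀ (n : ℕ) (G : SimpleGraph (Fin n))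
    (D : ℕ), D₁ ≤ D → IsMax G D →
    (∀ v, {w | G.Adj v w ∧ (1 - δ) * D < (G.neighborSet w).ncard}.ncard ≤ b) → PE 1 G := by
  obtain ⟨c, hc, D₀, h⟩ := degree_part δ hδ
  have hb : (0 : ℝ) < b + 1 := by positivity
  have h1 := Real.isLittleO_log_id_atTop.bound (c := c / (b + 1)) (by positivity)
  obtain ⟨n₁, hn₁⟩ := Filter.eventually_atTop.1
    (tendsto_natCast_atTop_atTop (R := ℝ).eventually h1)
  refine ⟨max D₀ (max n₁ 3), ?_⟩
  intro n G D hD hmax hfew H hH k hk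
  simp only [max_le_iff] at hD
  obtain ⟨d0, d1, d2⟩ := hD
  have hD3 : (3 : ℝ) ≤ D := by exact_mod_cast d2
  have hlog1 : 1 ≤ Real.log D := by
    rw [Real.le_log_iff_exp_le (by linarith)]
    linarith [Real.exp_one_lt_d9]
  have hlog := hn₁ D d1
  rw [Real.norm_eq_abs, Real.norm_eq_abs, abs_of_nonneg (by linarith)] at hlog
  simp only [id_eq] at hlog
  rw [abs_of_nonneg (by linarith)] at hlog
  refine h (Fin n) G H D d0 hH hmax.1 (fun v => ?_) k ?_
  · have h2 : ({w | G.Adj v w ∧ (1 - δ) * D < (G.neighborSet w).ncard}.ncard : ℝ) ≤ b := by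
      exact_mod_cast hfew v
    refine h2.trans ?_
    rw [le_div_iff₀ (by linarith)]
    have h3 : (b + 1 : ℝ) * Real.log D ≤ c * D := by
      calc (b + 1 : ℝ) * Real.log D ≤ (b + 1) * (c / (b + 1) * D) :=
            mul_le_mul_of_nonneg_left hlog hb.le
        _ = c * D := by
            field_simp
    nlinarith
  · obtain ⟨v, hv⟩ := hmax.2
    have := hk v
    unfold dg at hv
    omega

theorem sparse_prob (κ : ℝ) (hκ : 0 < κ) (ε : ℝ) (hε : 0 < ε) :
    ∀ᶠ n : ℕ in atTop, ∀ q : ℝ, 0 ≤ q → q ≤ 1 → (n : ℝ) * q ≤ κ * Real.log n →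
      1 - ε ≤ PR q (fun χ : Pairs n → Bool =>
        PE 2 (gr χ) ∧ (1 / Real.log n ≤ n * q → PE 1 (gr χ))) := by
  obtain ⟨δ, hδ, hδ1, hφ⟩ := exists_del κ hκ
  obtain ⟨b, hb⟩ := structure_thm (1 - δ) κ (by linarith) (by linarith) hκ hφ
  obtain ⟨D₁, hext⟩ := pe_of_few δ hδ b
  have h1 := hb 0 D₁ ε hε
  have h2 : ∀ᶠ n : ℕ in atTop, max 2 (1 / ε) ≤ Real.log n := ev_log (eventually_ge_atTop _)
  filter_upwards [h1, h2, eventually_ge_atTop 1] with n a1 a2 hn1
  intro q hq0 hq1 hqk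
  have hs : 0 < Real.log n := lt_of_lt_of_le (by norm_num) ((le_max_left _ _).trans a2)
  have : Nonempty (Fin n) := ⟨⟨0, hn1⟩⟩
  rcases le_or_gt (1 / Real.log n) (n * q) with hcs | hcs
  · refine (a1 q hcs hqk).trans (PR_mono hq0 hq1 (fun χ h => ?_))
    obtain ⟨D, hD⟩ := exists_isMax hn1 (gr χ)
    obtain ⟨hD1, hfew⟩ := h D hD
    have h3 : PE 1 (gr χ) := hext n (gr χ) D hD1 hD (fun v => by
      refine le_trans (Set.ncard_le_ncard ?_ (Set.toFinite _)) (hfew v)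
      rintro w ⟨w1, w2⟩
      refine ⟨w1, ?_⟩
      rw [Nat.cast_zero, add_zero]
      exact w2)
    exact ⟨PE_mono (by norm_num) _ h3, fun _ => h3⟩
  · have hc2 : (n : ℝ) * q ≤ 1 / 2 := by
      have : 1 / Real.log n ≤ 1 / 2 :=
        one_div_le_one_div_of_le (by norm_num) ((le_max_left _ _).trans a2)
      linarith
    have hac := PR_acyclic hq0 hq1 hc2
    have hcomp := PR_compl q (fun χ : Pairs n → Bool => ¬ (gr χ).IsAcyclic)
    have hε' : 1 / Real.log n ≤ ε := by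
      have := (le_max_right _ _).trans a2
      rw [div_le_iff₀ hε] at this
      rw [div_le_iff₀ hs]
      linarith
    have h3 : 1 - ε ≤ PR q (fun χ : Pairs n → Bool => ¬ ¬ (gr χ).IsAcyclic) := by
      rw [hcomp]
      linarith
    refine h3.trans (PR_mono hq0 hq1 (fun χ h => ⟨fun H hH k hk => ?_, fun h' => ?_⟩))
    · exact ext_bipartite (gr χ) H hH (not_not.1 h).colorable_two k hk
    · exact absurd h' (not_le.2 hcs)

theorem sparse_main (κ : ℝ) (hκ : 0 < κ) (ε : ℝ) (hε : 0 < ε) : ∃ n₀ : ℕ, ∀ n : ℕ, n₀ ≤ n →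
    ∀ q : ℝ, 0 ≤ q → q ≤ 1 → (n : ℝ) * q ≤ κ * Real.log n →
      1 - ε ≤ probG q (fun G : SimpleGraph (Fin n) =>
        PE 2 G ∧ (1 / Real.log n ≤ n * q → PE 1 G)) := by
  obtain ⟨n₀, h⟩ := Filter.eventually_atTop.1 (sparse_prob κ hκ ε hε)
  refine ⟨n₀, fun n hn q hq0 hq1 hq => ?_⟩
  rw [probG_eq]
  exact h n hn q hq0 hq1 hq

end Pool.Agent.U122.DR
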