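import Pool.Agent.N410.TB.Main
import Pool.Agent.Results.MP_db9399_co.SparseLargeDegrees

/-!
# Bipartite graphs: conversion of the library theorem
-/

set_option autoImplicit false

namespace Pool.Agent.U122.DR

open Pool.Agent.Results.MP_db9399_co.SparseLargeDegrees
  (IsTotalColoring IsDistThreeMatching Extends ListExtends)

/-- Every total colouring of a distance-3 matching of a bipartite graph extends. -/
theorem ext_bipartite {V : Type} [Fintype V] [Nonempty V] (G H : SimpleGraph V)
    (hH : IsDistThreeMatching G H) (hc : G.Colorable 2) (k : ℕ)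
    (hk : ∀ v, (G.neighborSet v).ncard + 2 ≤ k) : Extends G H k := by
  classical
  obtain ⟨C⟩ := hc
  obtain ⟨v0⟩ := ‹Nonempty V›
  obtain ⟨Δ, rfl⟩ : ∃ Δ, k = Δ + 2 := ⟨k - 2, by have := hk v0; omega⟩
  intro c d hcd hc hd
  have hX : ∀ u v, G.Adj u v → (C u = 0 ↔ ¬ C v = 0) := by
    intro u v huv
    have h1 := C.valid huv
    have h2 : C u = 0 ∨ C u = 1 := by
      have := (C u).2
      rcases Nat.lt_or_ge (C u).1 1 with h | h
      · exact Or.inl (Fin.ext (by simp; omega))
      · exact Or.inr (Fin.ext (by simp; omega))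
    have h3 : C v = 0 ∨ C v = 1 := by
      have := (C v).2
      rcases Nat.lt_or_ge (C v).1 1 with h | h
      · exact Or.inl (Fin.ext (by simp; omega))
      · exact Or.inr (Fin.ext (by simp; omega))
    constructor
    · intro h h'
      exact h1 (h.trans h'.symm)
    · intro h
      rcases h2 with h2 | h2
      · exact h2
      · rcases h3 with h3 | h3
        · exact absurd h3 h
        · exact absurd (h2.trans h3.symm) h1
  have sup : ∀ u v, H.Adj u v → u ∈ H.support := fun u v h => ⟨v, h⟩
  set f0 : V → Fin (Δ + 2) := fun v => if h : c v < Δ + 2 then ⟨c v, h⟩ else 0 with hf0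
  set g0 : Sym2 V → Fin (Δ + 2) := fun e => if h : d e < Δ + 2 then ⟨d e, h⟩ else 0 with hg0
  have e1 : ∀ v ∈ H.support, ((f0 v : Fin (Δ + 2)) : ℕ) = c v := by
    intro v hv
    simp only [hf0, dif_pos (hc v hv)]
  have e2 : ∀ e ∈ H.edgeSet, ((g0 e : Fin (Δ + 2)) : ℕ) = d e := by
    intro e he
    simp only [hg0, dif_pos (hd e he)]
  have h0 : Pool.Agent.R61.TotExt.IsTotal H f0 g0 := by
    refine ⟨?_, ?_, ?_⟩
    · intro u v huv h
      apply hcd.vert u v huv
      rw [← e1 u (sup u v huv), ← e1 v (sup v u huv.symm), h]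
    · intro u v w huv huw hvw h
      apply hcd.edge u v w huv huw hvw
      rw [← e2 s(u, v) huv, ← e2 s(u, w) huw, h]
    · intro u v huv h
      apply hcd.inc u v huv
      rw [← e2 s(u, v) huv, ← e1 u (sup u v huv), h]
  have hdist : ∀ u v x y, H.Adj u v → H.Adj x y → s(u, v) ≠ s(x, y) → 3 ≤ G.edist u x := by
    intro u v x y huv hxy hne
    refine hH.dist u (sup u v huv) x (sup x y hxy) ?_ ?_
    · rintro rfl
      exact hne (by rw [hH.matching u v y huv hxy])
    · intro hux
      apply hne
      have h1 := hH.matching u v x huv hux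
      have h2 := hH.matching x u y hux.symm hxy
      subst h1
      subst h2
      exact Sym2.eq_swap
  obtain ⟨f, g, h1, h2⟩ := Pool.Agent.N410.TB.ext_bip G H Δ (fun v => C v = 0) hX
    (fun v => by have := hk v; omega) hH.le hH.matching hdist f0 g0 h0
  refine ⟨fun v => f v, fun e => g e, ⟨?_, ?_, ?_⟩, ?_, ?_, fun v => (f v).2, fun e _ => (g e).2⟩
  · intro u v huv h
    exact h1.1 u v huv (Fin.ext h)
  · intro u v w huv huw hvw h
    exact h1.2.1 u v w huv huw hvw (Fin.ext h)
  · intro u v huv h
    exact h1.2.2 u v huv (Fin.ext h)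
  · intro v hv
    obtain ⟨w, hw⟩ := hv
    have hw' : H.Adj v w := hw
    show ((f v : Fin (Δ + 2)) : ℕ) = c v
    rw [(h2 v w hw').1]
    exact e1 v ⟨w, hw⟩
  · intro e
    induction e using Sym2.ind with
    | _ u v =>
      intro he
      have he' : H.Adj u v := he
      show ((g s(u, v) : Fin (Δ + 2)) : ℕ) = d s(u, v)
      rw [(h2 u v he').2]
      exact e2 s(u, v) he

end Pool.Agent.U122.DR
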