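import Pool.Agent.Y393.RS.All
import Pool.Agent.Results.MP_db9399_co.SparseLargeDegrees

/-!
# Extending total colourings of distance-3 matchings in dense random graphs
-/

set_option autoImplicit false

namespace Pool.Agent.U122.DR

open Finset
open Pool.Agent.Results.MP_db9399_co.SparseLargeDegrees
  (IsTotalColoring IsDistThreeMatching Extends ListExtends FewLarge list_part)
open Pool.Agent.Y393.RS

/-- all distance-3 matchings, all lists of more than `Δ` colours -/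
def PL {n : ℕ} (G : SimpleGraph (Fin n)) : Prop :=
  ∀ H : SimpleGraph (Fin n), IsDistThreeMatching G H → ∀ k : ℕ,
    (∀ v, (G.neighborSet v).ncard + 1 ≤ k) → ListExtends G H k

theorem dgr_ncard {n : ℕ} (G : SimpleGraph (Fin n)) (v : Fin n) :
    dgr G v = (G.neighborSet v).ncard := by
  rw [← dg_eq_dgr]
  exact Pool.Agent.H162R2.Sparse.dg_eq_ncard G v

theorem small_of_log : ∃ n₀ : ℕ, ∀ n : ℕ, n₀ ≤ n →
    68 * (n : ℝ) ^ (1 / 4 : ℝ) * (1 + Real.log n) ≤ (n : ℝ) ^ (2 / 3 : ℝ) := by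
  have h1 := (isLittleO_log_rpow_atTop (r := 1 / 12) (by norm_num)).bound (c := 1 / 136)
    (by norm_num)
  have h2 : ∀ᶠ x : ℝ in Filter.atTop, (136 : ℝ) ≤ x ^ (1 / 12 : ℝ) :=
    (tendsto_rpow_atTop (by norm_num)).eventually_ge_atTop 136
  have h3 : ∀ᶠ x : ℝ in Filter.atTop, 68 * x ^ (1 / 4 : ℝ) * (1 + Real.log x) ≤
      x ^ (2 / 3 : ℝ) := by
    filter_upwards [h1, h2, Filter.eventually_ge_atTop (1 : ℝ)] with x hx1 hx2 hx3
    have h4 : 0 ≤ Real.log x := Real.log_nonneg hx3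
    have hx0 : (0 : ℝ) < x := by linarith
    have h5 : 0 < x ^ (1 / 12 : ℝ) := Real.rpow_pos_of_pos hx0 _
    rw [Real.norm_eq_abs, Real.norm_eq_abs, abs_of_nonneg h4, abs_of_nonneg h5.le] at hx1
    have h6 : 68 * (1 + Real.log x) ≤ x ^ (1 / 12 : ℝ) := by linarith
    have h7 : 0 < x ^ (1 / 4 : ℝ) := Real.rpow_pos_of_pos hx0 _
    calc 68 * x ^ (1 / 4 : ℝ) * (1 + Real.log x)
        = x ^ (1 / 4 : ℝ) * (68 * (1 + Real.log x)) := by ring
      _ ≤ x ^ (1 / 4 : ℝ) * x ^ (1 / 12 : ℝ) := mul_le_mul_of_nonneg_left h6 h7.le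
      _ = x ^ (1 / 3 : ℝ) := by
          rw [← Real.rpow_add hx0]
          norm_num
      _ ≤ x ^ (2 / 3 : ℝ) := Real.rpow_le_rpow_of_exponent_le hx3 (by norm_num)
  obtain ⟨n₀, hn₀⟩ := Filter.eventually_atTop.1
    (tendsto_natCast_atTop_atTop (R := ℝ).eventually h3)
  exact ⟨n₀, fun n hn => hn₀ n hn⟩

/-- few vertices of large degree: the hypotheses of the list theorem -/
theorem fewLarge {n : ℕ} (G : SimpleGraph (Fin n)) (D : ℕ) (ε : ℝ) (hn : 1 ≤ n)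
    (hD1 : ∀ v, dgr G v ≤ D) (hD2 : (n : ℝ) ^ (2 / 3 : ℝ) ≤ D) (hDn : D ≤ n)
    (hD3 : ((univ.filter (fun v => (D : ℝ) - ε * Lm n < dgr G v)).card : ℝ) ≤
      (n : ℝ) ^ (1 / 4 : ℝ))
    (hg : (n : ℝ) ^ (1 / 4 : ℝ) ≤ ε / 8 * Lm n)
    (hs : 68 * (n : ℝ) ^ (1 / 4 : ℝ) * (1 + Real.log n) ≤ (n : ℝ) ^ (2 / 3 : ℝ)) :
    FewLarge G D (univ.filter (fun v => (D : ℝ) - ε * Lm n < dgr G v))
      (2 * (univ.filter (fun v => (D : ℝ) - ε * Lm n < dgr G v)).card)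
      (univ.filter (fun v => (D : ℝ) - ε * Lm n < dgr G v)).card (ε / 2 * Lm n) := by
  classical
  set T : Finset (Fin n) := univ.filter (fun v => (D : ℝ) - ε * Lm n < dgr G v) with hT
  have hn1 : (1 : ℝ) ≤ n := by exact_mod_cast hn
  have hD0 : (0 : ℝ) < D := lt_of_lt_of_le (Real.rpow_pos_of_pos (by linarith) _) hD2
  have hT0 : (0 : ℝ) ≤ T.card := Nat.cast_nonneg _
  have h14 : (1 : ℝ) ≤ (n : ℝ) ^ (1 / 4 : ℝ) := Real.one_le_rpow hn1 (by norm_num)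
  have hlog : Real.log D ≤ Real.log n := Real.log_le_log hD0 (by exact_mod_cast hDn)
  have hlog0 : 0 ≤ Real.log (D : ℝ) := Real.log_natCast_nonneg D
  refine ⟨fun v => by rw [← dgr_ncard]; exact hD1 v, ?_, ?_, ?_, ?_⟩
  · refine le_trans ?_ (hs.trans hD2)
    have e1 : 34 * (2 * (T.card : ℝ)) * (1 + Real.log D) ≤
        34 * (2 * (n : ℝ) ^ (1 / 4 : ℝ)) * (1 + Real.log n) := by
      apply mul_le_mul _ (by linarith) (by linarith) (by positivity)
      linarith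
    linarith
  · intro X
    have h1 : {e : Fin n × Fin n | e.1 ∈ X ∧ e.2 ∈ X ∧ G.Adj e.1 e.2 ∧ (e.1 ∈ T ∨ e.2 ∈ T)} ⊆
        ((X ×ˢ T ∪ T ×ˢ X : Finset (Fin n × Fin n)) : Set (Fin n × Fin n)) := by
      rintro ⟨x, y⟩ ⟨h1, h2, -, h4⟩
      simp only [Finset.coe_union, Finset.coe_product, Set.mem_union, Set.mem_prod,
        Finset.mem_coe]
      rcases h4 with h4 | h4
      · exact Or.inr ⟨h4, h2⟩
      · exact Or.inl ⟨h1, h4⟩
    have h2 := Set.ncard_le_ncard h1 (Set.toFinite _)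
    rw [Set.ncard_coe_finset] at h2
    have h3 : (X ×ˢ T ∪ T ×ˢ X : Finset (Fin n × Fin n)).card ≤ 2 * T.card * X.card := by
      refine (Finset.card_union_le _ _).trans (le_of_eq ?_)
      rw [Finset.card_product, Finset.card_product]
      ring
    have h4 := h2.trans h3
    exact_mod_cast h4
  · intro v _
    have h1 : {w : Fin n | w ∈ T ∧ G.Adj v w} ⊆ (T : Set (Fin n)) := fun w hw => hw.1
    have h2 := Set.ncard_le_ncard h1 (Set.toFinite _)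
    rwa [Set.ncard_coe_finset] at h2
  · intro v hv
    have h1 : ((dgr G v : ℕ) : ℝ) ≤ D - ε * Lm n := by
      by_contra hcon
      exact hv (by rw [hT, Finset.mem_filter]; exact ⟨mem_univ _, not_le.1 hcon⟩)
    have h2 : ({w : Fin n | w ∉ T ∧ G.Adj v w}.ncard : ℝ) ≤ dgr G v := by
      rw [dgr_ncard]
      have : {w : Fin n | w ∉ T ∧ G.Adj v w}.ncard ≤ (G.neighborSet v).ncard :=
        Set.ncard_le_ncard (fun w hw => hw.2) (Set.toFinite _)
      exact_mod_cast this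
    linarith

theorem pl_coin : ∀ p δ : ℝ, 0 < p → 0 < δ → ∃ n₀ : ℕ, ∀ n : ℕ, n₀ ≤ n →
    ∀ F R : SimpleGraph (Fin n), Cond p F R → pr (fun χ => ¬ PL (rg F R χ)) ≤ δ := by
  intro p δ hp hδ
  obtain ⟨K, hL⟩ := list_part
  obtain ⟨ε, hε, hfew⟩ := t_few p hp
  obtain ⟨n₁, h1⟩ := hfew δ hδ
  obtain ⟨n₂, h2⟩ := hL (ε / 2) (by positivity)
  obtain ⟨n₃, h3⟩ := growth (ε := ε / 8) (by positivity)
  obtain ⟨n₄, h4⟩ := small_of_log
  refine ⟨max (max n₁ n₂) (max n₃ (max n₄ 1)), fun n hn F R hC => ?_⟩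
  simp only [max_le_iff] at hn
  obtain ⟨⟨hn1, hn2⟩, hn3, hn4, hn5⟩ := hn
  refine le_trans (pr_mono (fun χ hχ => ?_)) (h1 n hn1 F R hC)
  intro hcon
  apply hχ
  obtain ⟨D, hD1, ⟨v₀, hv₀⟩, hD2, hD3⟩ := hcon
  intro H hH k hk
  have hDn : D ≤ n := by
    rw [← hv₀]
    unfold dgr
    exact (Finset.card_le_univ _).trans (by simp)
  refine h2 (Fin n) (rg F R χ) H D _ _ _ _ hH
    (fewLarge (rg F R χ) D ε hn5 hD1 hD2 hDn hD3 (h3 n hn3) (h4 n hn4)) (Or.inr ⟨?_, ?_⟩) k ?_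
  · rw [Fintype.card_fin]
    exact hn2
  · rw [Fintype.card_fin]
    exact le_rfl
  · have := hk v₀
    rw [← dgr_ncard, hv₀] at this
    exact this

theorem typical_pl : Typical (fun _ G => PL G) := typical_of _ pl_coin

end Pool.Agent.U122.DR
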